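import Pool.Agent.Y565.RG.BilinF

set_option autoImplicit false

/-! # Prime gaps of record length around `α a b + f a + g b` for arbitrary dense sets and functions

Let `α` be irrational, `0 < ε ≤ 1` and `f(Z) = log Z (log₂ Z)² log₄ Z / (log₃ Z)²`, the order of the
largest known prime gaps.  There is `κ > 0` such that for arbitrarily large `Z` - for all large `Z` if
`α` is not a Liouville number, with `δ > 0` instead of `1 / 16` - the following holds for ALL sets
`A`, `B` of positive integers up to `Z` with `|A| |B| ≥ Z ^ (2 - 1/16)` and ALL real functions `f`, `g`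
with `α a b + f a + g b ≥ Z ^ ε` for `a ∈ A`, `b ∈ B`: at least `|A| |B| Z ^ (-ε)` pairs `(a, b)` in
`A × B` are such that no prime lies within `κ f(Z)` of `α a b + f a + g b`.  For example `α a b`, with
`a`, `b` primes or elements of any dense sets, or `α (a - b)²` for `a`, `b` in one dense set.

Proof: the bilinear sums over arbitrary sets with the phases `h (α a b + f a + g b) / q` are bounded
by the inequality of Cauchy and Schwarz and the large sieve, since the frequencies `h α / q` are on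
the minor arcs at the scales in question; the covering sieve of the starting library, in the form
`TH915.PW.crit_scaled`, does the rest. -/

namespace Pool.Agent.Results.MP_7ba156_nt.ArbitraryDenseSets

theorem result (α : ℝ) (hirr : Irrational α) (ε : ℝ) (hε : 0 < ε) (hε1 : ε ≤ 1) :
    ∃ κ : ℝ, 0 < κ ∧
      (∀ Z₁ : ℝ, ∃ Z : ℝ, Z₁ ≤ Z ∧ ∀ (A B : Finset ℕ) (f g : ℕ → ℝ),
        (∀ a ∈ A, 1 ≤ a ∧ (a : ℝ) ≤ Z) → (∀ b ∈ B, 1 ≤ b ∧ (b : ℝ) ≤ Z) →
        Z ^ (2 - 1 / 16 : ℝ) ≤ (A.card : ℝ) * B.card →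
        (∀ a ∈ A, ∀ b ∈ B, Z ^ ε ≤ α * a * b + f a + g b) →
        ∃ G : Finset (ℕ × ℕ), (A.card : ℝ) * B.card * Z ^ (-ε) ≤ G.card ∧
          ∀ x ∈ G, x.1 ∈ A ∧ x.2 ∈ B ∧ ∀ q : ℕ, q.Prime →
            κ * (Real.log Z * (Real.log (Real.log Z)) ^ 2 *
              Real.log (Real.log (Real.log (Real.log Z))) /
                (Real.log (Real.log (Real.log Z))) ^ 2) <
              |(q : ℝ) - (α * x.1 * x.2 + f x.1 + g x.2)|) ∧
      (¬ Liouville α → ∃ δ : ℝ, 0 < δ ∧ ∃ Z₀ : ℝ, ∀ Z : ℝ, Z₀ ≤ Z →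
        ∀ (A B : Finset ℕ) (f g : ℕ → ℝ),
        (∀ a ∈ A, 1 ≤ a ∧ (a : ℝ) ≤ Z) → (∀ b ∈ B, 1 ≤ b ∧ (b : ℝ) ≤ Z) →
        Z ^ (2 - δ) ≤ (A.card : ℝ) * B.card →
        (∀ a ∈ A, ∀ b ∈ B, Z ^ ε ≤ α * a * b + f a + g b) →
        ∃ G : Finset (ℕ × ℕ), (A.card : ℝ) * B.card * Z ^ (-ε) ≤ G.card ∧
          ∀ x ∈ G, x.1 ∈ A ∧ x.2 ∈ B ∧ ∀ q : ℕ, q.Prime →
            κ * (Real.log Z * (Real.log (Real.log Z)) ^ 2 *
              Real.log (Real.log (Real.log (Real.log Z))) /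
                (Real.log (Real.log (Real.log Z))) ^ 2) <
              |(q : ℝ) - (α * x.1 * x.2 + f x.1 + g x.2)|) :=
  Pool.Agent.Y565.RG.products_both α hirr ε hε hε1

end Pool.Agent.Results.MP_7ba156_nt.ArbitraryDenseSets
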