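import Pool.Agent.Y565.RG.GenF

set_option autoImplicit false

/-! # Prime gaps of record length around `T Φ(x / U, y / V) + f x + g y`, separated sets of reals

Let `0 < ε ≤ 1` and `F(Z) = log Z (log₂ Z)² log₄ Z / (log₃ Z)²`, the order of the largest known
prime gaps.  Let `Φ` be a real function on the unit square with a mixed derivative `Φ₁₂` (first in `x`,
then in `y`) which is bounded, bounded away from `0`, and Lipschitz in `x`.  There is `κ > 0`, depending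
only on `ε`, such that for all large `Z` (how large depends on `ε` and the bounds for `Φ₁₂`) the
following holds for ALL `U ≥ Z ^ ε` and `Z ^ ε ≤ V ≤ Z`, every amplitude `T` with
`Z ^ ε ≤ |T| ≤ U V Z ^ (-ε)`, ALL finite sets `X ⊂ [0, U]` and `Y ⊂ [0, V]` of real numbers whose
elements have mutual distances at least `1` and with `|X| |Y| ≥ U V Z ^ (-ε / 2)`, and ALL real
functions `f`, `g` with `T Φ(x / U, y / V) + f x + g y ≥ Z ^ ε`: at least `|X| |Y| Z ^ (-ε)` pairs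
`(x, y)` in `X × Y` are such that no prime lies within `κ F(Z)` of `T Φ(x / U, y / V) + f x + g y`.
There is no arithmetic in `X`, `Y`, `T`.  Examples for `Φ`: `x y`, `(x + y + 1) ^ s` with `s ≠ 0, 1`,
`x / (y + 1)`, the distance `√((x + 1) ^ 2 + (y + 1) ^ 2)`.

Proof: in the bilinear sums `∑ u(x) w(y) e(θ Φ(x / U, y / V))` over separated sets, subtract the phase
at `y = 0`, round `x` to a multiple of a small `δ`, use the inequality of Cauchy and Schwarz and sum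
over ALL multiples of `δ`, where a form of the inequality of Kusmin and Landau without monotonicity
applies; the covering sieve of the starting library, in the form `TH915.PW.crit_scaled`, does the
rest. -/

namespace Pool.Agent.Results.MP_7ba156_nt.SmoothPhases

theorem result (ε : ℝ) (hε : 0 < ε) (hε1 : ε ≤ 1) :
    ∃ κ : ℝ, 0 < κ ∧ ∀ c C : ℝ, 0 < c → ∃ Z₀ : ℝ, ∀ Z : ℝ, Z₀ ≤ Z →
      ∀ (Φ Φ₁ Φ₁₂ : ℝ → ℝ → ℝ),
      (∀ x ∈ Set.Icc (0 : ℝ) 1, ∀ y ∈ Set.Icc (0 : ℝ) 1,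
        HasDerivWithinAt (fun s => Φ s y) (Φ₁ x y) (Set.Icc 0 1) x ∧
        HasDerivWithinAt (fun t => Φ₁ x t) (Φ₁₂ x y) (Set.Icc 0 1) y ∧
        c ≤ |Φ₁₂ x y| ∧ |Φ₁₂ x y| ≤ C) →
      (∀ x ∈ Set.Icc (0 : ℝ) 1, ∀ x' ∈ Set.Icc (0 : ℝ) 1, ∀ y ∈ Set.Icc (0 : ℝ) 1,
        |Φ₁₂ x y - Φ₁₂ x' y| ≤ C * |x - x'|) →
      ∀ (T U V : ℝ) (X Y : Finset ℝ) (f g : ℝ → ℝ),
      Z ^ ε ≤ U → Z ^ ε ≤ V → V ≤ Z → Z ^ ε ≤ |T| → |T| ≤ U * V * Z ^ (-ε) →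
      (∀ x ∈ X, 0 ≤ x ∧ x ≤ U) → (∀ x ∈ X, ∀ x' ∈ X, x ≠ x' → 1 ≤ |x - x'|) →
      (∀ y ∈ Y, 0 ≤ y ∧ y ≤ V) → (∀ y ∈ Y, ∀ y' ∈ Y, y ≠ y' → 1 ≤ |y - y'|) →
      U * V * Z ^ (-(ε / 2)) ≤ (X.card : ℝ) * Y.card →
      (∀ x ∈ X, ∀ y ∈ Y, Z ^ ε ≤ T * Φ (x / U) (y / V) + f x + g y) →
      ∃ G : Finset (ℝ × ℝ), (X.card : ℝ) * Y.card * Z ^ (-ε) ≤ G.card ∧
        ∀ p ∈ G, p.1 ∈ X ∧ p.2 ∈ Y ∧ ∀ q : ℕ, q.Prime →
          κ * (Real.log Z * (Real.log (Real.log Z)) ^ 2 *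
            Real.log (Real.log (Real.log (Real.log Z))) /
              (Real.log (Real.log (Real.log Z))) ^ 2) <
            |(q : ℝ) - (T * Φ (p.1 / U) (p.2 / V) + f p.1 + g p.2)| := by
  obtain ⟨κ, hκ, h⟩ := Pool.Agent.Y565.RG.gen_scale ε hε hε1
  refine ⟨κ, hκ, fun c C hc => ?_⟩
  obtain ⟨Z₀, h0⟩ := Filter.eventually_atTop.mp (h c (max 1 C) hc (le_max_left _ _))
  refine ⟨Z₀, fun Z hZ Φ Φ₁ Φ₁₂ h1 h2 => h0 Z hZ Φ Φ₁ Φ₁₂ (fun x hx y hy => ?_)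
    (fun x hx x' hx' y hy => ?_)⟩
  · obtain ⟨a, b, c1, c2⟩ := h1 x hx y hy
    exact ⟨a, b, c1, c2.trans (le_max_right _ _)⟩
  · exact (h2 x hx x' hx' y hy).trans
      (mul_le_mul_of_nonneg_right (le_max_right _ _) (abs_nonneg _))

end Pool.Agent.Results.MP_7ba156_nt.SmoothPhases
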