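import Mathlib
import Pool.Agent.Y837.SW.Asm

set_option autoImplicit false

/-!
# Record prime gaps around the values of all squarefree forms

Let `F_1, …, F_m` be integer polynomials in `n` variables which are squarefree (over `ℚ`), homogeneous of weights
`D_j ≠ 0` for common integer weights `w_i` (of any signs) of the variables, and pairwise not proportional: for
example any finite set of pairwise not proportional squarefree forms, of arbitrary degrees (`w_i = 1`), such as
linear forms, nonsingular forms like `x³ + y³ + z³`, norm forms, determinants, discriminants; or `x² + y³`,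
`x² - y³`, `x`, `y`, `x y` together (`w = (3, 2)`).

Then every box of side `Z` contains an integer point `x` such that around EACH of the numbers
`F_1(x), …, F_m(x)` all the integers at distance at most `c f(Z)`, `f` being the record scale
`log Z (log₂ Z)² log₄ Z / (log₃ Z)²`, have a prime factor `p ≤ Z ^ (1/10)`.

Method.  The covering sieve in several variables (`Y837/SV`, on the basis of the starting library) needs that the
number of solutions of `F_j = r` modulo `p`, `r ≠ 0`, is `p ^ (n-1) (1 + O(p ^ (-1/2)))`, and that of
`F_i = r, F_j = s` is `O(p ^ (n-2))`.  By the scaling the first number is expressed by the sums of `χ(F_j(x))`,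
`χ` a character whose order divides `D_j`.  These are sums over lines; by Gauss's lemma and an identity
`A F + B ∂F = R ≠ 0` the polynomial is squarefree on almost all lines, and Weil's bound for
`∑ χ(g(z))` applies, for every `g` which is not a constant times a power (Stepanov's method; the starting library
has it for `g` with a root in the field, the general case is proved in `Y837/SW`).  The second number is bounded by
means of the orbits of the scaling.
-/

namespace Pool.Agent.Results.MP_7ba156_nt.SquarefreeForms

open MvPolynomial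

/-- `f Z = log Z (log₂ Z)² log₄ Z / (log₃ Z)²`. -/
noncomputable def f (Z : ℝ) : ℝ :=
  Real.log Z * (Real.log (Real.log Z)) ^ 2 * Real.log (Real.log (Real.log (Real.log Z))) /
    (Real.log (Real.log (Real.log Z))) ^ 2

/-- `F` is homogeneous of weight `D` if the variable `x_i` has weight `w i`. -/
def Weight {n : ℕ} (w : Fin n → ℤ) (D : ℤ) (F : MvPolynomial (Fin n) ℤ) : Prop :=
  ∀ e ∈ F.support, ∑ i, w i * (e i : ℤ) = D

/-- **Record prime gaps around the values of squarefree weighted homogeneous polynomials.** -/
theorem result {m n : ℕ} (F : Fin m → MvPolynomial (Fin n) ℤ) (w : Fin n → ℤ) (D : Fin m → ℤ)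
    (hD : ∀ j, D j ≠ 0) (hw : ∀ j, Weight w (D j) (F j))
    (hF : ∀ j, Squarefree (map (algebraMap ℤ ℚ) (F j)))
    (hne : ∀ i j, i ≠ j → ∀ a b : ℤ, a ≠ 0 → C a * F i ≠ C b * F j) :
    ∃ c : ℝ, 0 < c ∧ ∃ Z₀ : ℝ, ∀ Z : ℕ, Z₀ ≤ Z → ∀ M : Fin n → ℤ, ∃ x : Fin n → ℤ,
      (∀ i, M i < x i ∧ x i ≤ M i + Z) ∧
        ∀ j, ∀ k : ℤ, |(k : ℝ) - eval x (F j)| ≤ c * f Z →
          ∃ p : ℕ, p.Prime ∧ (p : ℝ) ≤ (Z : ℝ) ^ (1 / 10 : ℝ) ∧ (p : ℤ) ∣ k :=
  Pool.Agent.Y837.SW.forms_main n F w D hD hw hF hne

end Pool.Agent.Results.MP_7ba156_nt.SquarefreeForms
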